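import Pool.Agent.Helper89.KN.Defs

/-!
# Final assembly (module KN10)

From the core statement for generic pairs and open convex sets to the statement for finite families
of arbitrary convex sets of the Euclidean plane.
-/

set_option autoImplicit false

namespace Pool.KN

open Finset

/-- Statement of (KN8). -/
def PairsOfLocal (r : ℕ) : Prop :=
    ∃ k₀ : ℕ, ∀ (ι : Type) [Finite ι] (A : ι → Set (ℝ × ℝ)),
      (∀ i, Convex ℝ (A i)) → (∀ i, IsCompact (A i)) →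
      (∀ G : Finset ι, G.card ≤ k₀ → ∃ x y : ℝ × ℝ, ∀ i ∈ G, x ∈ A i ∨ y ∈ A i) →
      ∀ T₀ : ℕ, ∃ T : ℕ, T₀ ≤ T ∧ ∃ P Q : Fin T → ℝ × ℝ,
        ∀ i, r * Nat.card {t : Fin T // P t ∉ A i ∧ Q t ∉ A i} ≤ T

/-- A compactness lemma: if the sets `A i`, `i ∈ H`, have common points after thickening by every
`1 / (n + 1)`, then they have a common point. -/
theorem exists_common_of_cthickening {ι : Type} (A : ι → Set (ℝ × ℝ)) (hA : ∀ i, IsCompact (A i))
    (H : Set ι)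
    (h : ∀ n : ℕ, ∃ w : ℝ × ℝ, ∀ i ∈ H, w ∈ Metric.cthickening (1 / ((n : ℝ) + 1)) (A i)) :
    ∃ w : ℝ × ℝ, ∀ i ∈ H, w ∈ A i := by
  rcases H.eq_empty_or_nonempty with rfl | ⟨i₀, hi₀⟩
  · exact ⟨0, fun i hi => absurd hi (Set.notMem_empty i)⟩
  · let K : ℕ → Set (ℝ × ℝ) := fun n => ⋂ i ∈ H, Metric.cthickening (1 / ((n : ℝ) + 1)) (A i)
    have hne : ∀ n, (K n).Nonempty := by
      intro n
      obtain ⟨w, hw⟩ := h n
      exact ⟨w, Set.mem_iInter₂.2 hw⟩
    have hcl : ∀ n, IsClosed (K n) := fun n =>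
      isClosed_biInter fun i _ => Metric.isClosed_cthickening
    have hmono : ∀ n, K (n + 1) ⊆ K n := by
      intro n x hx
      refine Set.mem_iInter₂.2 fun i hi => ?_
      refine Metric.cthickening_mono ?_ (A i) (Set.mem_iInter₂.1 hx i hi)
      apply one_div_le_one_div_of_le
      · positivity
      · push_cast; linarith
    have hcomp : IsCompact (K 0) :=
      (hA i₀).cthickening.of_isClosed_subset (hcl 0) (Set.biInter_subset_of_mem hi₀)
    obtain ⟨w, hw⟩ := IsCompact.nonempty_iInter_of_sequence_nonempty_isCompact_isClosed K hmono hne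
      hcomp hcl
    refine ⟨w, fun i hi => ?_⟩
    have h1 : w ∈ closure (A i) := by
      rw [Metric.mem_closure_iff_infEDist_zero] at *
      refine le_antisymm ?_ bot_le
      refine ENNReal.le_of_forall_pos_le_add fun ε hε _ => ?_
      obtain ⟨n, hn⟩ := exists_nat_one_div_lt hε
      have h2 := Set.mem_iInter₂.1 (Set.mem_iInter.1 hw n) i hi
      rw [Metric.mem_cthickening_iff] at h2
      rw [zero_add]
      refine h2.trans ?_
      rw [← ENNReal.ofReal_coe_nnreal]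
      apply ENNReal.ofReal_le_ofReal
      have : ((1 / ((n : NNReal) + 1) : NNReal) : ℝ) < (ε : ℝ) := by exact_mod_cast hn
      push_cast at this
      linarith
    rwa [(hA i).isClosed.closure_eq] at h1

/-- Planar compact version. -/
theorem three_of_compact (r : ℕ) (M₀ : ℕ)
    (hcore : ∀ M : ℕ, M₀ ≤ M → ∀ lab : Fin M × Bool → ℝ × ℝ, Generic lab →
      ∀ (κ : Type) [Finite κ] (B : κ → Set (ℝ × ℝ)), (∀ k, Convex ℝ (B k)) → (∀ k, IsOpen (B k)) →
      (∀ k, r * Nat.card {t : Fin M // Misses lab (B k) t} ≤ M) →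
      ∃ x y z : ℝ × ℝ, ∀ k, x ∈ B k ∨ y ∈ B k ∨ z ∈ B k)
    (hgen : ∀ {α : Type} [Finite α] (L : α → ℝ × ℝ) (δ : ℝ), 0 < δ →
      ∃ L' : α → ℝ × ℝ, Generic L' ∧ ∀ a, dist (L' a) (L a) < δ)
    (T : ℕ) (hT : M₀ ≤ T) (P Q : Fin T → ℝ × ℝ)
    (ι : Type) [Finite ι] (A : ι → Set (ℝ × ℝ))
    (hconv : ∀ i, Convex ℝ (A i)) (hcpt : ∀ i, IsCompact (A i))
    (hPQ : ∀ i, r * Nat.card {t : Fin T // P t ∉ A i ∧ Q t ∉ A i} ≤ T) :
    ∃ x y z : ℝ × ℝ, ∀ i, x ∈ A i ∨ y ∈ A i ∨ z ∈ A i := by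
  classical
  -- three points for every thickening
  have hstep : ∀ n : ℕ, ∃ w : Fin 3 → ℝ × ℝ, ∀ i, ∃ j, w j ∈ Metric.thickening (1 / ((n : ℝ) + 1)) (A i) := by
    intro n
    have hδ : (0 : ℝ) < 1 / ((n : ℝ) + 1) := by positivity
    let L : Fin T × Bool → ℝ × ℝ := fun z => if z.2 then Q z.1 else P z.1
    obtain ⟨L', hL', hd⟩ := hgen L _ hδ
    obtain ⟨x, y, z, hxyz⟩ := hcore T hT L' hL' ι (fun i => Metric.thickening (1 / ((n : ℝ) + 1)) (A i))
      (fun i => (hconv i).thickening _) (fun i => Metric.isOpen_thickening) (fun i => by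
        refine le_trans (Nat.mul_le_mul_left r ?_) (hPQ i)
        apply Nat.card_le_card_of_injective
          (fun t : {t : Fin T // Misses L' (Metric.thickening (1 / ((n : ℝ) + 1)) (A i)) t} =>
            (⟨t.1, ?_, ?_⟩ : {t : Fin T // P t ∉ A i ∧ Q t ∉ A i}))
        · intro s t hst
          have := congrArg Subtype.val hst
          exact Subtype.ext this
        · intro hP
          apply t.2.1
          rw [Metric.mem_thickening_iff]
          exact ⟨P t.1, hP, by simpa [L] using hd (t.1, false)⟩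
        · intro hQ
          apply t.2.2
          rw [Metric.mem_thickening_iff]
          exact ⟨Q t.1, hQ, by simpa [L] using hd (t.1, true)⟩)
    refine ⟨![x, y, z], fun i => ?_⟩
    rcases hxyz i with h | h | h
    · exact ⟨0, h⟩
    · exact ⟨1, h⟩
    · exact ⟨2, h⟩
  choose w hw using hstep
  choose c hc using hw
  -- a class function occurring infinitely often
  obtain ⟨d, hd⟩ := Finite.exists_infinite_fiber c
  have hfreq : ∀ n : ℕ, ∃ m, n ≤ m ∧ c m = d := by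
    intro n
    by_contra hcon
    push Not at hcon
    have : (c ⁻¹' {d} : Set ℕ) ⊆ Set.Iio n := by
      intro m hm
      by_contra h
      exact hcon m (not_lt.1 h) hm
    exact (Set.infinite_coe_iff.1 hd) ((Set.finite_Iio n).subset this)
  have hj : ∀ j : Fin 3, ∃ u : ℝ × ℝ, ∀ i ∈ {i | d i = j}, u ∈ A i := by
    intro j
    apply exists_common_of_cthickening A hcpt
    intro n
    obtain ⟨m, hnm, hm⟩ := hfreq n
    refine ⟨w m j, fun i hi => ?_⟩
    have h1 := hc m i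
    rw [hm] at h1
    have h2 : d i = j := hi
    rw [h2] at h1
    refine Metric.cthickening_mono ?_ _ (Metric.thickening_subset_cthickening _ _ h1)
    apply one_div_le_one_div_of_le
    · positivity
    · have : (n : ℝ) ≤ m := by exact_mod_cast hnm
      linarith
  choose u hu using hj
  refine ⟨u 0, u 1, u 2, fun i => ?_⟩
  have h1 := hu (d i) i rfl
  generalize d i = j at h1
  fin_cases j
  · exact Or.inl h1
  · exact Or.inr (Or.inl h1)
  · exact Or.inr (Or.inr h1)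

/-- (KN10), with the two inputs (KN8), (KN9) as hypotheses. -/
theorem main_of_core_of
    (hpairs : ∀ r : ℕ, 0 < r → PairsOfLocal r)
    (hgen : ∀ {α : Type} [Finite α] (L : α → ℝ × ℝ) (δ : ℝ), 0 < δ →
      ∃ L' : α → ℝ × ℝ, Generic L' ∧ ∀ a, dist (L' a) (L a) < δ)
    (core : ∃ r : ℕ, 0 < r ∧ ∃ M₀ : ℕ, ∀ M : ℕ, M₀ ≤ M → ∀ lab : Fin M × Bool → ℝ × ℝ, Generic lab →
      ∀ (κ : Type) [Finite κ] (B : κ → Set (ℝ × ℝ)), (∀ k, Convex ℝ (B k)) → (∀ k, IsOpen (B k)) →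
      (∀ k, r * Nat.card {t : Fin M // Misses lab (B k) t} ≤ M) →
      ∃ x y z : ℝ × ℝ, ∀ k, x ∈ B k ∨ y ∈ B k ∨ z ∈ B k) :
    ∃ k₀ : ℕ, ∀ F : Finset (Set (EuclideanSpace ℝ (Fin 2))),
      (∀ C ∈ F, Convex ℝ C) →
      (∀ G ⊆ F, G.card ≤ k₀ →
        ∃ P : Finset (EuclideanSpace ℝ (Fin 2)), P.card ≤ 2 ∧ ∀ C ∈ G, ∃ p ∈ P, p ∈ C) →
      ∃ P : Finset (EuclideanSpace ℝ (Fin 2)), P.card ≤ 3 ∧ ∀ C ∈ F, ∃ p ∈ P, p ∈ C := by
  classical
  obtain ⟨r, hr, M₀, hcore⟩ := core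
  obtain ⟨k₀, hk₀⟩ := hpairs r hr
  refine ⟨k₀, fun F hF hG => ?_⟩
  let e : EuclideanSpace ℝ (Fin 2) ≃ₗ[ℝ] ℝ × ℝ :=
    (EuclideanSpace.equiv (Fin 2) ℝ).toLinearEquiv.trans (LinearEquiv.finTwoArrow ℝ ℝ)
  -- choose the piercing sets
  have hG' : ∀ G : Finset (Set (EuclideanSpace ℝ (Fin 2))), ∃ P : Finset (EuclideanSpace ℝ (Fin 2)),
      G ⊆ F → G.card ≤ k₀ → P.card ≤ 2 ∧ ∀ C ∈ G, ∃ p ∈ P, p ∈ C := by
    intro G
    by_cases h : G ⊆ F ∧ G.card ≤ k₀
    · obtain ⟨P, hP⟩ := hG G h.1 h.2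
      exact ⟨P, fun _ _ => hP⟩
    · exact ⟨∅, fun h1 h2 => absurd ⟨h1, h2⟩ h⟩
  choose p hp using hG'
  let S : Finset (EuclideanSpace ℝ (Fin 2)) := F.powerset.biUnion p
  have hS : ∀ G ⊆ F, p G ⊆ S := fun G hGF x hx =>
    Finset.mem_biUnion.2 ⟨G, Finset.mem_powerset.2 hGF, hx⟩
  let A : {C // C ∈ F} → Set (ℝ × ℝ) := fun C => convexHull ℝ (e '' ((S : Set (EuclideanSpace ℝ (Fin 2))) ∩ C.1))
  have hAconv : ∀ C, Convex ℝ (A C) := fun C => convex_convexHull ℝ _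
  have hAcpt : ∀ C, IsCompact (A C) := fun C =>
    ((S.finite_toSet.inter_of_left _).image e).isCompact_convexHull ℝ
  have hAsub : ∀ C, A C ⊆ e '' C.1 := by
    intro C
    apply convexHull_min
    · exact Set.image_mono Set.inter_subset_right
    · exact (hF C.1 C.2).linear_image e.toLinearMap
  obtain ⟨T, hT, P, Q, hPQ⟩ := hk₀ {C // C ∈ F} A hAconv hAcpt (by
    intro G hGc
    let G₁ : Finset (Set (EuclideanSpace ℝ (Fin 2))) := G.image Subtype.val
    have hG₁F : G₁ ⊆ F := by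
      intro C hC
      obtain ⟨C', _, rfl⟩ := Finset.mem_image.1 hC
      exact C'.2
    have hG₁c : G₁.card ≤ k₀ := Finset.card_image_le.trans hGc
    obtain ⟨h2, h3⟩ := hp G₁ hG₁F hG₁c
    obtain ⟨x, y, hxy⟩ : ∃ x y, ∀ q ∈ p G₁, q = x ∨ q = y := by
      rcases Nat.lt_or_ge (p G₁).card 2 with h | h
      · obtain ⟨x, hx⟩ := Finset.card_le_one_iff_subset_singleton.1 (Nat.lt_succ_iff.1 h)
        exact ⟨x, x, fun q hq => Or.inl (Finset.mem_singleton.1 (hx hq))⟩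
      · obtain ⟨x, y, _, hxy⟩ := Finset.card_eq_two.1 (le_antisymm h2 h)
        refine ⟨x, y, fun q hq => ?_⟩
        rw [hxy, Finset.mem_insert, Finset.mem_singleton] at hq
        exact hq
    refine ⟨e x, e y, fun C hC => ?_⟩
    obtain ⟨q, hq, hqC⟩ := h3 C.1 (Finset.mem_image_of_mem _ hC)
    have hqA : e q ∈ A C := subset_convexHull ℝ _ ⟨q, ⟨hS G₁ hG₁F hq, hqC⟩, rfl⟩
    rcases hxy q hq with rfl | rfl
    · exact Or.inl hqA
    · exact Or.inr hqA) M₀
  obtain ⟨x, y, z, hxyz⟩ := three_of_compact r M₀ hcore hgen T hT P Q {C // C ∈ F} A hAconv hAcpt hPQ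
  refine ⟨{e.symm x, e.symm y, e.symm z}, Finset.card_le_three, fun C hC => ?_⟩
  have key : ∀ u : ℝ × ℝ, u ∈ A ⟨C, hC⟩ → e.symm u ∈ C := by
    intro u hu
    obtain ⟨v, hv, hvu⟩ := hAsub _ hu
    rw [← hvu, LinearEquiv.symm_apply_apply]
    exact hv
  rcases hxyz ⟨C, hC⟩ with h | h | h
  · exact ⟨e.symm x, by simp, key x h⟩
  · exact ⟨e.symm y, by simp, key y h⟩
  · exact ⟨e.symm z, by simp, key z h⟩

end Pool.KN
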