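import Mathlib

/-!
# Averaging (supersaturation) lemma (module KN4)

If every injective choice of `N` indices in `Fin M` contains a pattern `(t, a, v)` in relation `R`,
then for one `t` and one choice of `a`, a positive proportion of all triples `v` is in relation.
-/

set_option autoImplicit false

namespace Pool.KN

open Finset

private lemma card_inj_ge (N M : ℕ) (hM : 2 * N ^ 2 + 1 ≤ M) :
    (M : ℝ) ^ N ≤ 2 * (Fintype.card (Fin N ↪ Fin M) : ℝ) := by
  have hM0 : (0 : ℝ) < M := by
    have : 0 < M := by omega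
    exact_mod_cast this
  have hNM : N ≤ M := by nlinarith [sq_nonneg (N : ℤ)]
  rw [Fintype.card_embedding_eq, Fintype.card_fin, Fintype.card_fin]
  have h1 : ((M - N : ℕ) : ℝ) ^ N ≤ (M.descFactorial N : ℝ) := by
    have h2 : (M + 1 - N) ^ N ≤ M.descFactorial N := Nat.pow_sub_le_descFactorial M N
    have h3 : (M - N) ^ N ≤ (M + 1 - N) ^ N := Nat.pow_le_pow_left (by omega) N
    exact_mod_cast h3.trans h2
  have h4 : (1 : ℝ) + N * (-(N / M : ℝ)) ≤ (1 + (-(N / M : ℝ))) ^ N := by
    apply one_add_mul_le_pow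
    have : (N : ℝ) / M ≤ 1 := by
      rw [div_le_one hM0]; exact_mod_cast hNM
    linarith
  have h5 : (1 / 2 : ℝ) ≤ 1 + N * (-(N / M : ℝ)) := by
    have h6 : (N : ℝ) * (N / M) ≤ 1 / 2 := by
      rw [← mul_div_assoc, div_le_iff₀ hM0]
      have : (2 * (N : ℝ) ^ 2 + 1) ≤ M := by exact_mod_cast hM
      nlinarith
    linarith
  have h7 : ((M - N : ℕ) : ℝ) ^ N = (M : ℝ) ^ N * (1 + (-(N / M : ℝ))) ^ N := by
    rw [← mul_pow, Nat.cast_sub hNM]
    congr 1
    field_simp
    ring
  have h8 : (0 : ℝ) < (M : ℝ) ^ N := by positivity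
  have h9 : (M : ℝ) ^ N * (1 / 2) ≤ (M : ℝ) ^ N * (1 + (-(N / M : ℝ))) ^ N :=
    mul_le_mul_of_nonneg_left (h5.trans h4) h8.le
  linarith

/-- (KN4) averaging -/
theorem averaging (N : ℕ) (τ : Type) [Finite τ] :
    ∃ γ : ℝ, 0 < γ ∧ ∃ M₀ : ℕ, ∀ M : ℕ, M₀ ≤ M →
      ∀ R : τ → (Fin 4 → Fin M) → (Fin 3 → Fin M) → Prop,
      (∀ g : Fin N → Fin M, Function.Injective g →
        ∃ (t : τ) (a : Fin 4 → Fin N) (v : Fin 3 → Fin N),
          Function.Injective v ∧ (∀ i j, v i ≠ a j) ∧ R t (g ∘ a) (g ∘ v)) →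
      ∃ (t : τ) (a : Fin 4 → Fin M), γ * (M : ℝ) ^ 3 ≤ (Nat.card {v : Fin 3 → Fin M // R t a v} : ℝ) := by
  classical
  have := Fintype.ofFinite τ
  set c : ℝ := (Fintype.card (τ × (Fin 4 → Fin N) × (Fin 3 → Fin N)) : ℝ) with hc
  have hc0 : 0 ≤ c := by positivity
  refine ⟨1 / (4 * (c + 1)), by positivity, 2 * N ^ 2 + 1, fun M hM R h => ?_⟩
  by_contra hcon
  push Not at hcon
  set γ : ℝ := 1 / (4 * (c + 1)) with hγ
  have hγ0 : 0 < γ := by positivity
  have hM0 : (0 : ℝ) < M := by
    have : 0 < M := by omega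
    exact_mod_cast this
  set K : ℕ := ⌊γ * (M : ℝ) ^ 3⌋₊ with hKdef
  have hKr : (K : ℝ) ≤ γ * (M : ℝ) ^ 3 := Nat.floor_le (by positivity)
  have hK : ∀ t a, (univ.filter (fun v : Fin 3 → Fin M => R t a v)).card ≤ K := by
    intro t a
    apply Nat.le_floor
    have h1 := hcon t a
    rw [Nat.card_eq_fintype_card, Fintype.card_subtype] at h1
    exact h1.le
  let G : τ × (Fin 4 → Fin N) × (Fin 3 → Fin N) → Finset (Fin N → Fin M) := fun p =>
    if Function.Injective p.2.2 ∧ (∀ i j, p.2.2 i ≠ p.2.1 j) then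
      univ.filter (fun g => R p.1 (g ∘ p.2.1) (g ∘ p.2.2)) else ∅
  have hG : ∀ p, ((G p).card : ℝ) ≤ γ * (M : ℝ) ^ N := by
    rintro ⟨t, a, v⟩
    by_cases hp : Function.Injective v ∧ (∀ i j, v i ≠ a j)
    · have hGp : G (t, a, v) = univ.filter (fun g : Fin N → Fin M => R t (g ∘ a) (g ∘ v)) := by
        simp only [G]; rw [if_pos hp]
      rw [hGp]
      obtain ⟨hv, hav⟩ := hp
      let f : (Fin N → Fin M) → ({x : Fin N // x ∉ Set.range v} → Fin M) := fun g x => g x
      have hcardc : Fintype.card {x : Fin N // x ∉ Set.range v} = N - 3 := by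
        rw [Fintype.card_subtype_compl, Fintype.card_fin]
        congr 1
        have : Fintype.card {x // x ∈ Set.range v} = Fintype.card (Fin 3) :=
          (Fintype.card_congr (Equiv.ofInjective v hv)).symm
        rw [this, Fintype.card_fin]
      have h3N : 3 ≤ N := by
        have := Fintype.card_le_of_injective v hv
        simpa using this
      have h1 : (univ.filter (fun g : Fin N → Fin M => R t (g ∘ a) (g ∘ v))).card ≤
          K * ((univ.filter (fun g : Fin N → Fin M => R t (g ∘ a) (g ∘ v))).image f).card := by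
        apply Finset.card_le_mul_card_image
        intro b _
        let a' : Fin 4 → Fin M := fun j => b ⟨a j, fun ⟨i, hi⟩ => hav i j hi⟩
        refine le_trans ?_ (hK t a')
        apply Finset.card_le_card_of_injOn (fun g => g ∘ v)
        · intro g hg
          simp only [coe_filter, mem_univ, true_and, Finset.mem_filter, Set.mem_ofPred_eq] at hg ⊢
          have : g ∘ a = a' := by
            funext j
            simp only [a', ← hg.2, f, Function.comp]
          rw [← this]
          exact hg.1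
        · intro g hg g' hg' hgg
          simp only [coe_filter, mem_univ, true_and, Finset.mem_filter, Set.mem_ofPred_eq] at hg hg'
          funext x
          by_cases hx : x ∈ Set.range v
          · obtain ⟨i, rfl⟩ := hx
            exact congrFun hgg i
          · have h2 := congrFun (hg.2.trans hg'.2.symm) ⟨x, hx⟩
            exact h2
      have h2 : ((univ.filter (fun g : Fin N → Fin M => R t (g ∘ a) (g ∘ v))).image f).card ≤
          M ^ (N - 3) := by
        refine (Finset.card_le_univ _).trans ?_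
        rw [Fintype.card_fun, Fintype.card_fin, hcardc]
      have h4 : (univ.filter (fun g : Fin N → Fin M => R t (g ∘ a) (g ∘ v))).card ≤ K * M ^ (N - 3) :=
        h1.trans (Nat.mul_le_mul_left K h2)
      calc ((univ.filter (fun g : Fin N → Fin M => R t (g ∘ a) (g ∘ v))).card : ℝ)
          ≤ K * (M : ℝ) ^ (N - 3) := by exact_mod_cast h4
        _ ≤ (γ * (M : ℝ) ^ 3) * (M : ℝ) ^ (N - 3) :=
            mul_le_mul_of_nonneg_right hKr (by positivity)
        _ = γ * (M : ℝ) ^ N := by
            rw [mul_assoc, ← pow_add]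
            congr 2
            omega
    · have hGp : G (t, a, v) = ∅ := by
        simp only [G]; rw [if_neg hp]
      rw [hGp]
      simp only [Finset.card_empty, Nat.cast_zero]
      positivity
  have hsub : (univ.filter (fun g : Fin N → Fin M => Function.Injective g)) ⊆ univ.biUnion G := by
    intro g hg
    rw [Finset.mem_filter] at hg
    obtain ⟨t, a, v, hv, hav, hR⟩ := h g hg.2
    rw [Finset.mem_biUnion]
    refine ⟨(t, a, v), Finset.mem_univ _, ?_⟩
    simp only [G]
    rw [if_pos ⟨hv, hav⟩, Finset.mem_filter]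
    exact ⟨Finset.mem_univ _, hR⟩
  have hcardinj : (univ.filter (fun g : Fin N → Fin M => Function.Injective g)).card =
      Fintype.card (Fin N ↪ Fin M) := by
    rw [← Fintype.card_subtype]
    exact Fintype.card_congr (Equiv.subtypeInjectiveEquivEmbedding (Fin N) (Fin M))
  have h5 : (Fintype.card (Fin N ↪ Fin M) : ℝ) ≤ c * (γ * (M : ℝ) ^ N) := by
    rw [← hcardinj]
    calc ((univ.filter (fun g : Fin N → Fin M => Function.Injective g)).card : ℝ)
        ≤ ((univ.biUnion G).card : ℝ) := by exact_mod_cast Finset.card_le_card hsub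
      _ ≤ ((∑ p, (G p).card : ℕ) : ℝ) := by exact_mod_cast Finset.card_biUnion_le
      _ = ∑ p, ((G p).card : ℝ) := by push_cast; rfl
      _ ≤ ∑ _p : τ × (Fin 4 → Fin N) × (Fin 3 → Fin N), γ * (M : ℝ) ^ N :=
          Finset.sum_le_sum (fun p _ => hG p)
      _ = c * (γ * (M : ℝ) ^ N) := by
          rw [Finset.sum_const, nsmul_eq_mul, Finset.card_univ]
  have h6 := card_inj_ge N M hM
  have h7 : (0 : ℝ) < (M : ℝ) ^ N := by positivity
  have h8 : c * γ ≤ 1 / 4 := by
    rw [hγ, mul_one_div, div_le_div_iff₀ (by positivity) (by norm_num)]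
    nlinarith
  have h9 : c * (γ * (M : ℝ) ^ N) ≤ (1 / 4) * (M : ℝ) ^ N := by
    rw [← mul_assoc]
    exact mul_le_mul_of_nonneg_right h8 h7.le
  linarith

end Pool.KN
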